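import Pool.Agent.Q293.DirSum

/-!
# The direct sum of countably many copies of the integers is not algebraically recurrent

The steps are `±e_k`, where `e_k` runs over the standard basis and `k` has tails `P(k ≥ m) = 1/(m+1)`.
Almost surely, for all large `k`, the coordinate `k` is hit only once before a larger one is hit.
Hence the last non-zero coordinate of the walk is `±1` with a sign which depends only on its index,
and the same coordinate of any sum of positions of the walk is non-zero.
-/

set_option autoImplicit false

open MeasureTheory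

namespace Pool.Agent.Results.MP_eb99da_pr.DirectSumNotAR

/-- The group: finitely supported functions from the integers to the integers. -/
abbrev G : Type := ℤ →₀ ℤ

/-- `μ` is symmetric, and its support generates the group. -/
def Admissible (μ : PMF G) : Prop :=
  (∀ g : G, μ (-g) = μ g) ∧ AddSubgroup.closure μ.support = ⊤

/-- The law of the i.i.d. steps `ω 0, ω 1, ...` with law `μ`. -/
noncomputable def steps [MeasurableSpace G] (μ : PMF G) : Measure (ℕ → G) :=
  Measure.infinitePi (fun _ : ℕ => μ.toMeasure)

/-- The walk: `walk ω m = ω 0 + ω 1 + ... + ω (m - 1)`. -/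
noncomputable def walk (ω : ℕ → G) (m : ℕ) : G := ∑ i ∈ Finset.range m, ω i

/-- The semigroup generated by `walk ω n, walk ω (n + 1), ...`. -/
noncomputable def tail (ω : ℕ → G) (n : ℕ) : AddSubsemigroup G :=
  AddSubsemigroup.closure {g | ∃ m, n ≤ m ∧ g = walk ω m}

/-- The direct sum of countably many copies of the integers is not algebraically recurrent: there
are a symmetric probability measure `μ` on it whose support generates it, and an `n ≥ 1`, such that
the semigroup generated by the walk from time `n` on is different from the group with positive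
probability; in fact, almost surely, zero is missing from the semigroup generated by the walk after
some time. (Every subset of the group is measurable.) -/
theorem result [MeasurableSpace G] [DiscreteMeasurableSpace G] :
    ∃ μ : PMF G, Admissible μ ∧
      (∃ n : ℕ, 1 ≤ n ∧ 0 < steps μ {ω | tail ω n ≠ ⊤}) ∧
      (∀ᵐ ω ∂(steps μ), ∃ n : ℕ, 1 ≤ n ∧ (0 : G) ∉ tail ω n) := by
  have hs : ∀ᵐ ω ∂(steps Q293.DirSum.nu), ∃ n : ℕ, 1 ≤ n ∧ (0 : G) ∉ tail ω n := by
    unfold steps
    filter_upwards [Q293.DirSum.nu_strong] with ω hω
    obtain ⟨n, hn, i0, ε, hX⟩ := hω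
    refine ⟨n, hn, fun h1 => ?_⟩
    have hle : tail ω n ≤ Q293.DirSum.P i0 ε := by
      unfold tail
      rw [AddSubsemigroup.closure_le]
      rintro _ ⟨m, hm, rfl⟩
      exact hX m hm
    exact Q293.DirSum.zero_notMem_P i0 ε (hle h1)
  have hpos : ∃ n : ℕ, 1 ≤ n ∧ 0 < steps Q293.DirSum.nu {ω | tail ω n ≠ ⊤} := by
    by_contra hcon
    push Not at hcon
    have h1 : ∀ᵐ ω ∂(steps Q293.DirSum.nu), ∀ n : ℕ, 1 ≤ n → tail ω n = ⊤ := by
      rw [ae_all_iff]
      intro n
      by_cases hn : 1 ≤ n
      · have h2 := nonpos_iff_eq_zero.1 (hcon n hn)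
        have h3 : ∀ᵐ ω ∂(steps Q293.DirSum.nu), tail ω n = ⊤ := by
          rw [ae_iff]; exact h2
        filter_upwards [h3] with ω hω _ using hω
      · exact Filter.Eventually.of_forall fun ω hn' => absurd hn' hn
    have h2 : ∀ᵐ ω ∂(steps Q293.DirSum.nu), False := by
      filter_upwards [h1, hs] with ω hω1 hω2
      obtain ⟨n, hn, hω3⟩ := hω2
      rw [hω1 n hn] at hω3
      exact hω3 (AddSubsemigroup.mem_top _)
    unfold steps at h2
    rw [ae_iff] at h2
    simp at h2
  exact ⟨Q293.DirSum.nu, ⟨Q293.DirSum.nu_symm, Q293.DirSum.nu_closure⟩, hpos, hs⟩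

end Pool.Agent.Results.MP_eb99da_pr.DirectSumNotAR
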